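import Mathlib

set_option autoImplicit false

open Set

namespace Pool.Agent.Results.MP_db617b_an.Disc

def ext {k : ℕ} (s : Fin k → ℝ) : Fin (k + 2) → ℝ := Fin.cons 0 (Fin.snoc s 1)

noncomputable def mu {k : ℕ} (x : (Fin k → ℝ) × (Fin (k + 1) → ℝ)) (a : ℕ) : ℝ :=
  ∑ i : Fin (k + 1), x.2 i *
    (∑ j ∈ Finset.range (a + 1), ext x.1 i.succ ^ j * ext x.1 i.castSucc ^ (a - j)) / (a + 1)

def fibre (k : ℕ) (A : Finset ℕ) (m : ℕ → ℝ) : Set ((Fin k → ℝ) × (Fin (k + 1) → ℝ)) :=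
  {x | Monotone (ext x.1) ∧ (∀ i, 0 ≤ x.2 i) ∧ ∑ i, x.2 i = 1 ∧ ∀ a ∈ A, mu x a = m a}

theorem ext2 (s : Fin 2 → ℝ) : ext s = ![0, s 0, s 1, 1] := by
  funext i
  fin_cases i <;> rfl

theorem result : ¬ ∀ k : ℕ, 1 ≤ k → ∀ (A : Finset ℕ) (m : ℕ → ℝ),
    IsPreconnected (fibre k A m) := by
  intro h
  have hc := h 2 (by norm_num) {0, 1, 2, 3}
    (fun a => if a = 0 then 1 else if a = 1 then 45 / 98 else if a = 2 then 43 / 147 else 2073 / 9604)
  set Φ : (Fin 2 → ℝ) × (Fin 3 → ℝ) → ℝ := fun x => x.2 1 * x.1 0 - x.2 0 * (x.1 1 - x.1 0) with hΦ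
  have cΦ : Continuous Φ := by fun_prop
  have m1 : ((![1 / 7, 2 / 7], ![6 / 49, 13 / 49, 30 / 49]) : (Fin 2 → ℝ) × (Fin 3 → ℝ)) ∈
      fibre 2 {0, 1, 2, 3} (fun a => if a = 0 then 1 else if a = 1 then 45 / 98 else
        if a = 2 then 43 / 147 else 2073 / 9604) := by
    refine ⟨?_, ?_, ?_, ?_⟩
    · rw [ext2, Fin.monotone_iff_le_succ]
      intro i; fin_cases i <;> simp <;> norm_num
    · intro i; fin_cases i <;> simp <;> norm_num
    · simp [Fin.sum_univ_three]; norm_num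
    · simp [mu, ext2, Fin.sum_univ_three, Finset.sum_range_succ]; norm_num
  have m2 : ((![5 / 7, 6 / 7], ![40 / 49, 1 / 49, 8 / 49]) : (Fin 2 → ℝ) × (Fin 3 → ℝ)) ∈
      fibre 2 {0, 1, 2, 3} (fun a => if a = 0 then 1 else if a = 1 then 45 / 98 else
        if a = 2 then 43 / 147 else 2073 / 9604) := by
    refine ⟨?_, ?_, ?_, ?_⟩
    · rw [ext2, Fin.monotone_iff_le_succ]
      intro i; fin_cases i <;> simp <;> norm_num
    · intro i; fin_cases i <;> simp <;> norm_num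
    · simp [Fin.sum_univ_three]; norm_num
    · simp [mu, ext2, Fin.sum_univ_three, Finset.sum_range_succ]; norm_num
  obtain ⟨x, ⟨-, -, h0, h1⟩, hx⟩ := hc.intermediate_value m2 m1 cΦ.continuousOn
    (show (0:ℝ) ∈ Icc _ _ by simp [hΦ]; norm_num)
  have e1 := h1 1 (by simp)
  have e2 := h1 2 (by simp)
  have e3 := h1 3 (by simp)
  simp [mu, ext2, Fin.sum_univ_three, Finset.sum_range_succ] at e1 e2 e3 h0
  simp only [hΦ] at hx
  set s := x.1 0
  set t := x.1 1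
  set u := x.2 0
  set v := x.2 1
  set w := x.2 2
  have a1 : t + w = 45 / 49 := by linear_combination 2 * e1 - hx - t * h0
  have a2 : t ^ 2 + w * (1 + t) = 43 / 49 := by
    linear_combination 3 * e2 - (s + t) * hx - t ^ 2 * h0
  have a3 : t ^ 3 + w * (1 + t + t ^ 2) = 2073 / 2401 := by
    linear_combination 4 * e3 - (s ^ 2 + s * t + t ^ 2) * hx - t ^ 3 * h0
  have a4 : t = 1 / 2 := by linear_combination (-49 / 4) * a2 + (49 / 4) * (1 + t) * a1
  have a5 : w = 41 / 98 := by linarith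
  rw [a4, a5] at a3
  norm_num at a3

end Pool.Agent.Results.MP_db617b_an.Disc
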